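import Pool.Agent.W133.DQ.StB

/-! Project DQ, part CH1: chains, small regime. -/

set_option autoImplicit false

open scoped ContDiff

namespace Pool.Agent.W883.DQ

open Pool.Agent.W133.DQ

theorem contDiff_star {u v : P2 → ℝ} (hu : ContDiff ℝ ∞ u) (hv : ContDiff ℝ ∞ v) :
    ContDiff ℝ ∞ (Pool.Agent.W133.DQ.star u v) := by
  have h1 : ContDiff ℝ ∞ (fun p : P2 => ((p.1 + v p, p.2) : P2)) :=
    (contDiff_fst.add hv).prodMk contDiff_snd
  exact hv.add (hu.comp h1)

theorem contDiff_chain {w : ℕ → P2 → ℝ} (hw : ∀ i, ContDiff ℝ ∞ (w i)) :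
    ∀ m, ContDiff ℝ ∞ (chain w m) := by
  intro m
  induction m with
  | zero => exact contDiff_const
  | succ m ih => exact contDiff_star (hw m) ih

theorem NB_mono {r : ℕ} {u : P2 → ℝ} {b c : ℝ} (h : NB r u b) (hbc : b ≤ c) : NB r u c :=
  fun p => (h p).trans hbc

theorem NB_zero (r : ℕ) {c : ℝ} (hc : 0 ≤ c) : NB r (fun _ : P2 => (0 : ℝ)) c := by
  intro p
  have : iteratedFDeriv ℝ r (fun _ : P2 => (0 : ℝ)) p = 0 := by
    rw [iteratedFDeriv_zero_fun]
    rfl
  rw [this, norm_zero]
  exact hc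

theorem ch1 (hE : S_EC0) : S_CH1 := by
  choose! E hE0 hE using hE
  set K : ℝ := E 1 + E 2 + E 3 + E 4 with hK
  have hK0 : 0 ≤ K := by
    have := hE0 1 le_rfl
    have := hE0 2 (by norm_num)
    have := hE0 3 (by norm_num)
    have := hE0 4 (by norm_num)
    positivity
  have hEK : ∀ r : ℕ, 1 ≤ r → r ≤ 4 → E r ≤ K := by
    intro r h1 h4
    have e1 := hE0 1 le_rfl
    have e2 := hE0 2 (by norm_num)
    have e3 := hE0 3 (by norm_num)
    have e4 := hE0 4 (by norm_num)
    interval_cases r <;> linarith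
  intro M
  -- it is enough to treat `b ≤ a`
  suffices H : ∃ ε C : ℝ, 0 < ε ∧ 0 < C ∧ ∀ w : ℕ → P2 → ℝ,
      (∀ i, ContDiff ℝ ∞ (w i)) → ∀ a b : ℝ, 0 ≤ a → a ≤ ε → 0 ≤ b → b ≤ a →
      (∀ i, i < M → ∀ j : ℕ, 1 ≤ j → j ≤ 4 → NB j (w i) a) → (∀ i, i < M → NB 4 (w i) b) →
      NB 4 (chain w M) (M * b + C * a ^ 2) ∧ ∀ j : ℕ, 1 ≤ j → j ≤ 4 → NB j (chain w M) (C * a) by
    obtain ⟨ε, C, hε, hC, H⟩ := H
    refine ⟨ε, C, hε, hC, fun w hw a b ha hae hb h1 h2 => ?_⟩
    have h3 : ∀ i, i < M → NB 4 (w i) (min a b) := by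
      intro i hi p
      exact le_min (h1 i hi 4 (by norm_num) le_rfl p) (h2 i hi p)
    obtain ⟨r1, r2⟩ := H w hw a (min a b) ha hae (le_min ha hb) (min_le_left _ _) h1 h3
    refine ⟨NB_mono r1 ?_, r2⟩
    have : (M : ℝ) * min a b ≤ M * b := mul_le_mul_of_nonneg_left (min_le_right _ _) (by positivity)
    linarith
  induction M with
  | zero =>
    refine ⟨1, 1, one_pos, one_pos, fun w hw a b ha _ hb _ _ _ => ⟨?_, fun j _ _ => ?_⟩⟩
    · exact NB_zero 4 (by positivity)
    · exact NB_zero j (by positivity)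
  | succ M ih =>
    obtain ⟨ε, C, hε, hC, ih⟩ := ih
    set D : ℝ := C + 1 with hD
    have hD1 : 1 ≤ D := by linarith
    have hD0 : 0 < D := by linarith
    refine ⟨min ε (1 / D), 2 * D + 16 + 16 * K * D + M + 2 * C + 15 * D + 16 * K * D ^ 2,
      lt_min hε (by positivity), by positivity, ?_⟩
    intro w hw a b ha hae hb hba h1 h2
    have ha1 : a ≤ ε := hae.trans (min_le_left _ _)
    have hDa : D * a ≤ 1 := by
      have := hae.trans (min_le_right _ _)
      rw [le_div_iff₀ hD0] at this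
      linarith
    have haD : a ≤ D * a := le_mul_of_one_le_left ha hD1
    have ha2 : a ≤ 1 := haD.trans hDa
    have hDa0 : 0 ≤ D * a := by positivity
    obtain ⟨i1, i2⟩ := ih w hw a b ha ha1 hb hba (fun i hi => h1 i (by omega))
      (fun i hi => h2 i (by omega))
    have i3 : ∀ j : ℕ, 1 ≤ j → j ≤ 4 → NB j (chain w M) (D * a) := fun j hj1 hj4 =>
      NB_mono (i2 j hj1 hj4) (by rw [hD]; linarith)
    have hs : ContDiff ℝ ∞ (chain w M) := contDiff_chain hw M
    have hwM := h1 M (by omega)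
    have hp : ∀ r : ℕ, r ≤ 4 → (1 + D * a) ^ r ≤ 16 := by
      intro r hr
      calc (1 + D * a) ^ r ≤ 2 ^ r := pow_le_pow_left₀ (by positivity) (by linarith) r
        _ ≤ 2 ^ 4 := pow_le_pow_right₀ (by norm_num) hr
        _ = 16 := by norm_num
    have hp0 : ∀ r : ℕ, 0 ≤ (1 + D * a) ^ r := fun r => by positivity
    change NB 4 (Pool.Agent.W133.DQ.star (w M) (chain w M)) _ ∧ ∀ j : ℕ, 1 ≤ j → j ≤ 4 →
      NB j (Pool.Agent.W133.DQ.star (w M) (chain w M)) _
    constructor
    · have key := hE 4 (by norm_num) (w M) (chain w M) (hw M) hs (D * a) a (D * a) b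
        (M * b + C * a ^ 2) hDa0 ha hDa0 hb (by positivity)
        (fun j hj1 hj4 => ⟨NB_mono (hwM j hj1 (by omega)) haD, i3 j hj1 (by omega)⟩)
        (hwM 1 le_rfl (by norm_num)) (i3 1 le_rfl (by norm_num)) (h2 M (by omega)) i1
      refine NB_mono key ?_
      have hE4 := hEK 4 (by norm_num) le_rfl
      have hE40 := hE0 4 (by norm_num)
      have t1 : (1 + a) * (M * b + C * a ^ 2) ≤ M * b + (M + 2 * C) * a ^ 2 := by
        have s1 : (M : ℝ) * (a * b) ≤ M * (a * a) := by
          apply mul_le_mul_of_nonneg_left _ (by positivity)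
          exact mul_le_mul_of_nonneg_left hba ha
        have s2 : a * (C * a ^ 2) ≤ 1 * (C * a ^ 2) :=
          mul_le_mul_of_nonneg_right ha2 (by positivity)
        nlinarith
      have t2 : (1 + D * a) ^ 4 * b ≤ b + 15 * D * a ^ 2 := by
        have s1 : (1 + D * a) ^ 4 ≤ 1 + 15 * (D * a) := by
          have : (D * a) ^ 2 ≤ D * a := by nlinarith
          have : (D * a) ^ 3 ≤ D * a := by
            calc (D * a) ^ 3 = (D * a) ^ 2 * (D * a) := by ring
              _ ≤ (D * a) * 1 := by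
                apply mul_le_mul this hDa hDa0 hDa0
              _ = D * a := by ring
          have : (D * a) ^ 4 ≤ D * a := by
            calc (D * a) ^ 4 = (D * a) ^ 3 * (D * a) := by ring
              _ ≤ (D * a) * 1 := by
                apply mul_le_mul this hDa hDa0 hDa0
              _ = D * a := by ring
          nlinarith
        calc (1 + D * a) ^ 4 * b ≤ (1 + 15 * (D * a)) * b := mul_le_mul_of_nonneg_right s1 hb
          _ = b + 15 * D * (a * b) := by ring
          _ ≤ b + 15 * D * (a * a) := by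
            have : a * b ≤ a * a := mul_le_mul_of_nonneg_left hba ha
            have : 15 * D * (a * b) ≤ 15 * D * (a * a) :=
              mul_le_mul_of_nonneg_left this (by positivity)
            linarith
          _ = _ := by ring
      have t3 : E 4 * (D * a) ^ 2 * (1 + D * a) ^ 4 ≤ 16 * K * D ^ 2 * a ^ 2 := by
        calc E 4 * (D * a) ^ 2 * (1 + D * a) ^ 4 ≤ K * (D * a) ^ 2 * 16 := by
              apply mul_le_mul _ (hp 4 le_rfl) (hp0 4) (by positivity)
              exact mul_le_mul_of_nonneg_right hE4 (by positivity)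
          _ = _ := by ring
      have t4 : 0 ≤ (2 * D + 16 + 16 * K * D) * a ^ 2 := by positivity
      push_cast
      nlinarith
    · intro j hj1 hj4
      have key := hE j hj1 (w M) (chain w M) (hw M) hs (D * a) a (D * a) a
        (D * a) hDa0 ha hDa0 ha hDa0
        (fun i hi1 hi4 => ⟨NB_mono (hwM i hi1 (by omega)) haD, i3 i hi1 (by omega)⟩)
        (hwM 1 le_rfl (by norm_num)) (i3 1 le_rfl (by norm_num)) (hwM j hj1 hj4) (i3 j hj1 hj4)
      refine NB_mono key ?_
      have hEj := hEK j hj1 hj4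
      have hEj0 := hE0 j hj1
      have t1 : (1 + a) * (D * a) ≤ 2 * D * a := by nlinarith
      have t2 : (1 + D * a) ^ j * a ≤ 16 * a := mul_le_mul_of_nonneg_right (hp j hj4) ha
      have t3 : E j * (D * a) ^ 2 * (1 + D * a) ^ j ≤ 16 * K * D * a := by
        have s1 : (D * a) ^ 2 ≤ D * a := by nlinarith
        calc E j * (D * a) ^ 2 * (1 + D * a) ^ j ≤ K * (D * a) * 16 := by
              apply mul_le_mul _ (hp j hj4) (hp0 j) (by positivity)
              exact mul_le_mul hEj s1 (by positivity) hK0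
          _ = _ := by ring
      have t4 : 0 ≤ (M + 2 * C + 15 * D + 16 * K * D ^ 2) * a := by positivity
      nlinarith

end Pool.Agent.W883.DQ
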