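import Pool.Agent.W133.DQ.StF
import Pool.Agent.W646.DQ.Pert

/-! Project DQ, part EXTB: extension of germs tangent to the identity along the boundary. -/

set_option autoImplicit false

open scoped ContDiff
open Set Filter Topology

namespace Pool.Agent.W883.DQ.EB

open Pool.Agent.W133.DQ

/-- cut-off function -/
noncomputable def cc (t : ℝ) : ℝ := Real.smoothTransition (2 - t ^ 2)

theorem cc_smooth : ContDiff ℝ ∞ cc := by
  unfold cc
  exact Real.smoothTransition.contDiff.comp (contDiff_const.sub (contDiff_id.pow 2))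

theorem cc_one {t : ℝ} (h : |t| ≤ 1) : cc t = 1 := by
  apply Real.smoothTransition.one_of_one_le
  have := (sq_le_one_iff_abs_le_one t).2 h
  linarith

theorem cc_zero {t : ℝ} (h : 2 ≤ |t|) : cc t = 0 := by
  apply Real.smoothTransition.zero_of_nonpos
  have : (2 : ℝ) ^ 2 ≤ |t| ^ 2 := by gcongr
  rw [sq_abs] at this
  linarith

theorem cc_nn (t : ℝ) : 0 ≤ cc t := Real.smoothTransition.nonneg _
theorem cc_le (t : ℝ) : cc t ≤ 1 := Real.smoothTransition.le_one _

theorem cc_deriv : ∃ C : ℝ, 0 ≤ C ∧ ∀ t, |deriv cc t| ≤ C := by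
  have h1 : Continuous (deriv cc) := cc_smooth.continuous_deriv (by simp)
  have h2 : HasCompactSupport cc := by
    apply HasCompactSupport.intro (K := Icc (-2) 2) isCompact_Icc
    intro x hx
    apply cc_zero
    rw [mem_Icc, not_and_or, not_le, not_le] at hx
    rcases hx with hx | hx
    · rw [abs_of_neg (by linarith)]
      linarith
    · rw [abs_of_pos (by linarith)]
      linarith
  obtain ⟨C, hC⟩ := h2.deriv.exists_bound_of_continuous h1
  exact ⟨C, (norm_nonneg _).trans (hC 0), fun t => by simpa using hC t⟩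

theorem bdd_on {S : Set P2} (hS : IsCompact S) {f : P2 → ℝ}
    (hf : ContinuousOn f S) : ∃ C : ℝ, ∀ z ∈ S, f z ≤ C := by
  obtain ⟨C, hC⟩ := hS.bddAbove_image hf
  exact ⟨C, fun z hz => hC ⟨z, hz, rfl⟩⟩

theorem abs_fst (z : P2) : |z.1| ≤ ‖z‖ := by
  rw [Prod.norm_def]
  exact le_max_left _ _

theorem abs_snd (z : P2) : |z.2| ≤ ‖z‖ := by
  rw [Prod.norm_def]
  exact le_max_right _ _

theorem der_fst {f : ℝ → P2} {v : P2} {t : ℝ} (h : HasDerivAt f v t) :
    HasDerivAt (fun t => (f t).1) v.1 t :=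
  (ContinuousLinearMap.fst ℝ ℝ ℝ).hasFDerivAt.comp_hasDerivAt t h

theorem der_snd {f : ℝ → P2} {v : P2} {t : ℝ} (h : HasDerivAt f v t) :
    HasDerivAt (fun t => (f t).2) v.2 t :=
  (ContinuousLinearMap.snd ℝ ℝ ℝ).hasFDerivAt.comp_hasDerivAt t h

/-- the open strip -/
def U (η : ℝ) : Set P2 := {p : P2 | |p.2| < η}

theorem isOpen_U (η : ℝ) : IsOpen (U η) := isOpen_lt (continuous_abs.comp continuous_snd) continuous_const

theorem mem_U {η : ℝ} {p : P2} : p ∈ U η ↔ |p.2| < η := Iff.rfl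

section

variable {h : P2 → P2} {η : ℝ}

/-- periodicity of the derivative -/
theorem K_per (hp : ∀ p : P2, |p.2| < η → h (p.1 + 1, p.2) = h p + (1, 0)) (p : P2)
    (hq : p ∈ U η) : fderiv ℝ h (p + (1, 0)) = fderiv ℝ h p := by
  rw [← fderiv_comp_add_right]
  have h1 : (fun x : P2 => h (x + (1, 0))) =ᶠ[𝓝 p] fun x => h x + (1, 0) := by
    filter_upwards [(isOpen_U η).mem_nhds hq] with x hx
    have := hp x hx
    rw [← this]
    congr 1
    ext <;> simp
  rw [h1.fderiv_eq, fderiv_add_const]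

theorem per_nat {G : Type} (g : P2 → G) (hg : ∀ p ∈ U η, g (p + (1, 0)) = g p) (n : ℕ) :
    ∀ p ∈ U η, g (p + ((n : ℝ), 0)) = g p := by
  induction n with
  | zero =>
    intro p _
    have : p + (((0 : ℕ) : ℝ), 0) = p := by ext <;> simp
    rw [this]
  | succ n ih =>
    intro p hp
    have h1 : p + (((n + 1 : ℕ) : ℝ), 0) = (p + ((n : ℝ), 0)) + (1, 0) := by
      ext <;> simp
      ring
    rw [h1, hg _ (by simpa [U] using hp), ih p hp]

theorem per_fract {G : Type} (g : P2 → G) (hg : ∀ p ∈ U η, g (p + (1, 0)) = g p) (x y : ℝ)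
    (hy : |y| < η) : g (x, y) = g (Int.fract x, y) := by
  have hx : x = Int.fract x + ⌊x⌋ := (Int.fract_add_floor x).symm
  rcases Int.eq_nat_or_neg ⌊x⌋ with ⟨n, hn | hn⟩
  · have := per_nat g hg n (Int.fract x, y) hy
    rw [← this]
    congr 1
    ext
    · rw [hn] at hx
      simpa using hx
    · simp
  · have := per_nat g hg n (x, y) hy
    rw [← this]
    congr 1
    ext
    · rw [hn] at hx
      simp only [Prod.fst_add]
      push_cast at hx
      linarith
    · simp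

/-- bounds for the derivative -/
theorem K_bound (hη : 0 < η) (hh : ContDiffOn ℝ ∞ h (U η))
    (hp : ∀ p : P2, |p.2| < η → h (p.1 + 1, p.2) = h p + (1, 0)) :
    ∃ C : ℝ, 0 ≤ C ∧ ∀ x y : ℝ, |y| ≤ η / 2 → ‖fderiv ℝ h (x, y) - fderiv ℝ h (x, 0)‖ ≤ C * |y| ∧
      ‖fderiv ℝ h (x, y)‖ ≤ C := by
  have hK : ContDiffOn ℝ ∞ (fderiv ℝ h) (U η) := hh.fderiv_of_isOpen (isOpen_U η) (by simp)
  have hK2 : ContinuousOn (fderiv ℝ (fderiv ℝ h)) (U η) :=
    hK.continuousOn_fderiv_of_isOpen (isOpen_U η) (by simp)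
  set S : Set P2 := Icc (0 : ℝ) 1 ×ˢ Icc (-(η / 2)) (η / 2) with hS
  have hSc : IsCompact S := isCompact_Icc.prod isCompact_Icc
  have hSU : S ⊆ U η := by
    rintro ⟨a, b⟩ hab
    rw [hS, mem_prod] at hab
    have : |b| ≤ η / 2 := abs_le.2 hab.2
    exact lt_of_le_of_lt this (by linarith)
  have hSconv : Convex ℝ S := (convex_Icc 0 1).prod (convex_Icc _ _)
  obtain ⟨C1, hC1⟩ : ∃ C : ℝ, ∀ z ∈ S, ‖fderiv ℝ (fderiv ℝ h) z‖ ≤ C :=
    bdd_on hSc (ContinuousOn.norm (E := P2 →L[ℝ] P2 →L[ℝ] P2) (hK2.mono hSU))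
  obtain ⟨C2, hC2⟩ : ∃ C : ℝ, ∀ z ∈ S, ‖fderiv ℝ h z‖ ≤ C :=
    bdd_on hSc (hK.continuousOn.mono hSU).norm
  have h00 : ((0 : ℝ), (0 : ℝ)) ∈ S := by
    rw [hS, mem_prod]
    exact ⟨⟨le_rfl, zero_le_one⟩, ⟨by linarith, by linarith⟩⟩
  have hC10 : 0 ≤ C1 := (norm_nonneg (E := P2 →L[ℝ] P2 →L[ℝ] P2) _).trans (hC1 _ h00)
  refine ⟨max C1 C2, le_max_of_le_left hC10, ?_⟩
  intro x y hy
  have hyU : |y| < η := lt_of_le_of_lt hy (by linarith)
  have e1 : fderiv ℝ h (x, y) = fderiv ℝ h (Int.fract x, y) :=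
    per_fract (η := η) (fderiv ℝ h) (fun p hpU => K_per hp p hpU) x y hyU
  have e2 : fderiv ℝ h (x, 0) = fderiv ℝ h (Int.fract x, 0) :=
    per_fract (η := η) (fderiv ℝ h) (fun p hpU => K_per hp p hpU) x 0 (by simpa using hη)
  have m1 : ((Int.fract x, y) : P2) ∈ S := by
    rw [hS, mem_prod]
    exact ⟨⟨Int.fract_nonneg x, (Int.fract_lt_one x).le⟩, abs_le.1 hy⟩
  have m2 : ((Int.fract x, 0) : P2) ∈ S := by
    rw [hS, mem_prod]
    exact ⟨⟨Int.fract_nonneg x, (Int.fract_lt_one x).le⟩, ⟨by linarith, by linarith⟩⟩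
  constructor
  · rw [e1, e2]
    have := hSconv.norm_image_sub_le_of_norm_fderiv_le (𝕜 := ℝ) (f := fderiv ℝ h) (C := C1)
      (fun z hz => (hK.differentiableOn (by simp) z (hSU hz)).differentiableAt
        ((isOpen_U η).mem_nhds (hSU hz))) hC1 m2 m1
    refine this.trans ?_
    have e3 : ‖((Int.fract x, y) : P2) - (Int.fract x, 0)‖ = |y| := by
      rw [Prod.mk_sub_mk, Prod.norm_mk]
      simp
    rw [e3]
    exact mul_le_mul_of_nonneg_right (le_max_left _ _) (abs_nonneg y)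
  · rw [e1]
    exact (hC2 _ m1).trans (le_max_right _ _)

theorem K_zero (hη : 0 < η) (hh : ContDiffOn ℝ ∞ h (U η)) (h0 : ∀ x : ℝ, h (x, 0) = (x, 0))
    (x : ℝ) : fderiv ℝ h (x, 0) (1, 0) = (1, 0) := by
  have hd : DifferentiableAt ℝ h (x, 0) :=
    (hh.differentiableOn (by simp) (x, 0) (by simpa [U] using hη)).differentiableAt
      ((isOpen_U η).mem_nhds (by simpa [U] using hη))
  have h1 : HasDerivAt (fun t : ℝ => ((t, 0) : P2)) ((1, 0) : P2) x :=
    (hasDerivAt_id x).prodMk (hasDerivAt_const x 0)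
  have h2 : HasDerivAt (fun t : ℝ => h (t, 0)) (fderiv ℝ h (x, 0) (1, 0)) x :=
    hd.hasFDerivAt.comp_hasDerivAt x h1
  have h3 : (fun t : ℝ => h (t, 0)) = fun t : ℝ => ((t, 0) : P2) := by
    funext t
    exact h0 t
  rw [h3] at h2
  exact h2.unique h1

/-- bounds for the displacement -/
theorem k_bound (hη : 0 < η) (hh : ContDiffOn ℝ ∞ h (U η))
    (hp : ∀ p : P2, |p.2| < η → h (p.1 + 1, p.2) = h p + (1, 0)) (h0 : ∀ x : ℝ, h (x, 0) = (x, 0))
    (h1 : ∀ x : ℝ, (fderiv ℝ h (x, 0) (0, 1)).2 = 1) :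
    ∃ C : ℝ, 0 ≤ C ∧ ∀ x y : ℝ, |y| ≤ η / 2 →
      ‖fderiv ℝ h (x, y) (1, 0) - (1, 0)‖ ≤ C * |y| ∧
      |(fderiv ℝ h (x, y) (0, 1)).1| ≤ C ∧ |(fderiv ℝ h (x, y) (0, 1)).2 - 1| ≤ C * |y| ∧
      |(h (x, y)).1 - x| ≤ C * |y| ∧ |(h (x, y)).2 - y| ≤ C * |y| * |y| := by
  obtain ⟨C, hC0, hC⟩ := K_bound hη hh hp
  have n10 : ‖((1, 0) : P2)‖ = 1 := by simp [Prod.norm_mk]
  have n01 : ‖((0, 1) : P2)‖ = 1 := by simp [Prod.norm_mk]
  have A : ∀ x y : ℝ, |y| ≤ η / 2 → ‖fderiv ℝ h (x, y) (1, 0) - (1, 0)‖ ≤ C * |y| ∧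
      |(fderiv ℝ h (x, y) (0, 1)).1| ≤ C ∧ |(fderiv ℝ h (x, y) (0, 1)).2 - 1| ≤ C * |y| := by
    intro x y hy
    obtain ⟨c1, c2⟩ := hC x y hy
    refine ⟨?_, ?_, ?_⟩
    · have e1 : fderiv ℝ h (x, y) (1, 0) - (1, 0) =
          (fderiv ℝ h (x, y) - fderiv ℝ h (x, 0)) (1, 0) := by
        rw [sub_apply, K_zero hη hh h0 x]
      rw [e1]
      refine (ContinuousLinearMap.le_opNorm _ _).trans ?_
      rw [n10, mul_one]
      exact c1
    · have e1 : |(fderiv ℝ h (x, y) (0, 1)).1| ≤ ‖fderiv ℝ h (x, y) (0, 1)‖ := abs_fst _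
      refine e1.trans ((ContinuousLinearMap.le_opNorm _ _).trans ?_)
      rw [n01, mul_one]
      exact c2
    · have e1 : (fderiv ℝ h (x, y) (0, 1)).2 - 1 =
          ((fderiv ℝ h (x, y) - fderiv ℝ h (x, 0)) (0, 1)).2 := by
        rw [sub_apply, Prod.snd_sub, h1 x]
      rw [e1]
      refine (abs_snd _).trans ((ContinuousLinearMap.le_opNorm _ _).trans ?_)
      rw [n01, mul_one]
      exact c1
  refine ⟨C, hC0, fun x y hy => ⟨(A x y hy).1, (A x y hy).2.1, (A x y hy).2.2, ?_, ?_⟩⟩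
  all_goals
    have hd : ∀ t ∈ Icc (-|y|) |y|, HasDerivAt (fun t : ℝ => h (x, t))
        (fderiv ℝ h (x, t) (0, 1)) t := by
      intro t ht
      have ht2 : |t| < η := (abs_le.2 ht).trans_lt (hy.trans_lt (by linarith))
      have hd : DifferentiableAt ℝ h (x, t) :=
        (hh.differentiableOn (by simp) (x, t) ht2).differentiableAt
          ((isOpen_U η).mem_nhds ht2)
      have h1 : HasDerivAt (fun t : ℝ => ((x, t) : P2)) ((0, 1) : P2) t :=
        (hasDerivAt_const t x).prodMk (hasDerivAt_id t)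
      exact hd.hasFDerivAt.comp_hasDerivAt t h1
    have m0 : (0 : ℝ) ∈ Icc (-|y|) |y| := ⟨by simp, abs_nonneg y⟩
    have my : y ∈ Icc (-|y|) |y| := ⟨neg_abs_le y, le_abs_self y⟩
  · have e1 : ∀ t ∈ Icc (-|y|) |y|, HasDerivWithinAt (fun t : ℝ => (h (x, t)).1)
        ((fderiv ℝ h (x, t) (0, 1)).1) (Icc (-|y|) |y|) t := fun t ht =>
      (der_fst (hd t ht)).hasDerivWithinAt
    have := Convex.norm_image_sub_le_of_norm_hasDerivWithin_le (C := C) e1 (fun t ht =>
      (A x t ((abs_le.2 ht).trans hy)).2.1) (convex_Icc _ _) m0 my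
    simp only [h0, Real.norm_eq_abs, sub_zero] at this
    exact this
  · have e1 : ∀ t ∈ Icc (-|y|) |y|, HasDerivWithinAt (fun t : ℝ => (h (x, t)).2 - t)
        ((fderiv ℝ h (x, t) (0, 1)).2 - 1) (Icc (-|y|) |y|) t := fun t ht =>
      ((der_snd (hd t ht)).sub (hasDerivAt_id t)).hasDerivWithinAt
    have := Convex.norm_image_sub_le_of_norm_hasDerivWithin_le (C := C * |y|) e1 (fun t ht =>
      ((A x t ((abs_le.2 ht).trans hy)).2.2).trans
        (mul_le_mul_of_nonneg_left (abs_le.2 ht) hC0)) (convex_Icc _ _) m0 my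
    simp only [h0, Real.norm_eq_abs, sub_zero] at this
    exact this

/-- the displacement, cut off at height `e` -/
noncomputable def uu (h : P2 → P2) (η e : ℝ) (p : P2) : P2 :=
  if |p.2| < η then cc (p.2 / e) • (h p - p) else 0

theorem uu_zero {e : ℝ} (he : 0 < e) {p : P2} (hp : 2 * e ≤ |p.2|) : uu h η e p = 0 := by
  unfold uu
  split_ifs
  · rw [cc_zero, zero_smul]
    rw [abs_div, abs_of_pos he, le_div_iff₀ he]
    exact hp
  · rfl

theorem uu_smooth {e : ℝ} (he : 0 < e) (h2e : 2 * e < η) (hh : ContDiffOn ℝ ∞ h (U η)) :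
    ContDiff ℝ ∞ (uu h η e) := by
  rw [contDiff_iff_contDiffAt]
  intro p
  by_cases hp : |p.2| < η
  · have h1 : uu h η e =ᶠ[𝓝 p] fun p => cc (p.2 / e) • (h p - p) := by
      filter_upwards [(isOpen_U η).mem_nhds hp] with x hx
      unfold uu
      rw [if_pos (show |x.2| < η from hx)]
    refine ContDiffAt.congr_of_eventuallyEq ?_ h1
    exact ((cc_smooth.comp (contDiff_snd.div_const e)).contDiffAt).smul
      ((hh.contDiffAt ((isOpen_U η).mem_nhds hp)).sub contDiffAt_id)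
  · have h1 : uu h η e =ᶠ[𝓝 p] fun _ => 0 := by
      have h2 : IsOpen {q : P2 | 2 * e < |q.2|} :=
        isOpen_lt continuous_const (continuous_abs.comp continuous_snd)
      filter_upwards [h2.mem_nhds (lt_of_lt_of_le h2e (not_lt.1 hp))] with x hx
      exact uu_zero he (le_of_lt hx)
    exact contDiffAt_const.congr_of_eventuallyEq h1

theorem uu_per {e : ℝ} (hp : ∀ p : P2, |p.2| < η → h (p.1 + 1, p.2) = h p + (1, 0)) (p : P2) :
    uu h η e (p.1 + 1, p.2) = uu h η e p := by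
  unfold uu
  by_cases h1 : |p.2| < η
  · rw [if_pos h1, if_pos (by simpa using h1), hp p h1]
    congr 1
    ext <;> simp
  · rw [if_neg h1, if_neg (by simpa using h1)]

/-- the bounds for the derivative of the displacement -/
theorem uu_fderiv (hη : 0 < η) (hh : ContDiffOn ℝ ∞ h (U η)) {C C' e : ℝ} (hC0 : 0 ≤ C)
    (hC'0 : 0 ≤ C') (he : 0 < e) (he1 : e ≤ 1) (h2e : 2 * e ≤ η / 2)
    (hC : ∀ x y : ℝ, |y| ≤ η / 2 →
      ‖fderiv ℝ h (x, y) (1, 0) - (1, 0)‖ ≤ C * |y| ∧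
      |(fderiv ℝ h (x, y) (0, 1)).1| ≤ C ∧ |(fderiv ℝ h (x, y) (0, 1)).2 - 1| ≤ C * |y| ∧
      |(h (x, y)).1 - x| ≤ C * |y| ∧ |(h (x, y)).2 - y| ≤ C * |y| * |y|)
    (hC' : ∀ t, |deriv cc t| ≤ C') (x y : ℝ) :
    ‖fderiv ℝ (uu h η e) (x, y) (1, 0)‖ ≤ 2 * C * e ∧
    |(fderiv ℝ (uu h η e) (x, y) (0, 1)).1| ≤ 4 * C' * C + 2 * C ∧
    |(fderiv ℝ (uu h η e) (x, y) (0, 1)).2| ≤ (4 * C' * C + 2 * C) * e := by
  have hdu : Differentiable ℝ (uu h η e) :=
    (uu_smooth he (by linarith) hh).differentiable (by simp)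
  by_cases hy : 2 * e < |y|
  · have h1 : uu h η e =ᶠ[𝓝 ((x, y) : P2)] fun _ => 0 := by
      have h2 : IsOpen {q : P2 | 2 * e < |q.2|} :=
        isOpen_lt continuous_const (continuous_abs.comp continuous_snd)
      filter_upwards [h2.mem_nhds hy] with z hz
      exact uu_zero he (le_of_lt hz)
    have h2 : fderiv ℝ (uu h η e) (x, y) = 0 := by
      rw [h1.fderiv_eq]
      simp
    rw [h2]
    simp only [zero_apply, norm_zero, Prod.fst_zero, Prod.snd_zero, abs_zero]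
    refine ⟨by positivity, by positivity, by positivity⟩
  push Not at hy
  have hy2 : |y| ≤ η / 2 := hy.trans h2e
  have hyη : |y| < η := hy2.trans_lt (by linarith)
  obtain ⟨c1, c2, c3, c4, c5⟩ := hC x y hy2
  have hd : DifferentiableAt ℝ h (x, y) :=
    (hh.differentiableOn (by simp) (x, y) hyη).differentiableAt ((isOpen_U η).mem_nhds hyη)
  have hcc := cc_nn (y / e)
  have hcc1 := cc_le (y / e)
  have hCy : C * |y| ≤ 2 * C * e := by nlinarith
  -- horizontal derivative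
  have f1 : fderiv ℝ (uu h η e) (x, y) (1, 0) =
      cc (y / e) • (fderiv ℝ h (x, y) (1, 0) - (1, 0)) := by
    have g1 : HasDerivAt (fun t : ℝ => ((t, y) : P2)) ((1, 0) : P2) x :=
      (hasDerivAt_id x).prodMk (hasDerivAt_const x y)
    have g2' : HasDerivAt (uu h η e ∘ fun t : ℝ => ((t, y) : P2))
        (fderiv ℝ (uu h η e) (x, y) (1, 0)) x :=
      HasFDerivAt.comp_hasDerivAt x (hdu (x, y)).hasFDerivAt g1
    have g2 : HasDerivAt (fun t : ℝ => uu h η e (t, y)) (fderiv ℝ (uu h η e) (x, y) (1, 0)) x := g2'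
    have g3 : HasDerivAt (fun t : ℝ => h (t, y)) (fderiv ℝ h (x, y) (1, 0)) x :=
      hd.hasFDerivAt.comp_hasDerivAt x g1
    have g4 : HasDerivAt (fun t : ℝ => cc (y / e) • (h (t, y) - (t, y)))
        (cc (y / e) • (fderiv ℝ h (x, y) (1, 0) - (1, 0))) x := (g3.sub g1).const_smul (cc (y / e))
    have g5 : (fun t : ℝ => uu h η e (t, y)) = fun t : ℝ => cc (y / e) • (h (t, y) - (t, y)) := by
      funext t
      unfold uu
      rw [if_pos (by simpa using hyη)]
    rw [g5] at g2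
    exact g2.unique g4
  have f2 : fderiv ℝ (uu h η e) (x, y) (0, 1) =
      cc (y / e) • (fderiv ℝ h (x, y) (0, 1) - (0, 1)) +
      (deriv cc (y / e) * (1 / e)) • (h (x, y) - (x, y)) := by
    have g1 : HasDerivAt (fun t : ℝ => ((x, t) : P2)) ((0, 1) : P2) y :=
      (hasDerivAt_const y x).prodMk (hasDerivAt_id y)
    have g2' : HasDerivAt (uu h η e ∘ fun t : ℝ => ((x, t) : P2))
        (fderiv ℝ (uu h η e) (x, y) (0, 1)) y :=
      HasFDerivAt.comp_hasDerivAt y (hdu (x, y)).hasFDerivAt g1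
    have g2 : HasDerivAt (fun t : ℝ => uu h η e (x, t)) (fderiv ℝ (uu h η e) (x, y) (0, 1)) y := g2'
    have g3 : HasDerivAt (fun t : ℝ => h (x, t)) (fderiv ℝ h (x, y) (0, 1)) y :=
      hd.hasFDerivAt.comp_hasDerivAt y g1
    have g6 : HasDerivAt (fun t : ℝ => cc (t / e)) (deriv cc (y / e) * (1 / e)) y := by
      have i1 : HasDerivAt cc (deriv cc (y / e)) (y / e) :=
        ((cc_smooth.differentiable (by simp)) (y / e)).hasDerivAt
      have i2 : HasDerivAt (cc ∘ fun t : ℝ => t / e) (deriv cc (y / e) * (1 / e)) y :=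
        HasDerivAt.comp y i1 ((hasDerivAt_id' y).div_const e)
      exact i2
    have g4 : HasDerivAt (fun t : ℝ => cc (t / e) • (h (x, t) - (x, t)))
        (cc (y / e) • (fderiv ℝ h (x, y) (0, 1) - (0, 1)) +
      (deriv cc (y / e) * (1 / e)) • (h (x, y) - (x, y))) y := g6.smul (g3.sub g1)
    have g5 : (fun t : ℝ => uu h η e (x, t)) =ᶠ[𝓝 y] fun t : ℝ => cc (t / e) • (h (x, t) - (x, t)) := by
      have i2 : IsOpen {t : ℝ | |t| < η} := isOpen_lt continuous_abs continuous_const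
      filter_upwards [i2.mem_nhds hyη] with t ht
      unfold uu
      rw [if_pos (by simpa using ht)]
    exact (g2.congr_of_eventuallyEq g5.symm).unique g4
  refine ⟨?_, ?_, ?_⟩
  · rw [f1, norm_smul, Real.norm_eq_abs, abs_of_nonneg hcc]
    calc cc (y / e) * ‖fderiv ℝ h (x, y) (1, 0) - (1, 0)‖ ≤ 1 * (C * |y|) :=
          mul_le_mul hcc1 c1 (norm_nonneg _) zero_le_one
      _ ≤ 2 * C * e := by linarith
  · rw [f2]
    simp only [Prod.fst_add, Prod.smul_fst, Prod.fst_sub, sub_zero, smul_eq_mul]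
    refine (abs_add_le _ _).trans ?_
    rw [abs_mul, abs_mul, abs_mul, abs_of_nonneg hcc, abs_of_pos (by positivity : 0 < 1 / e)]
    have t1 : cc (y / e) * |(fderiv ℝ h (x, y) (0, 1)).1| ≤ 1 * C :=
      mul_le_mul hcc1 c2 (abs_nonneg _) zero_le_one
    have t2 : |deriv cc (y / e)| * (1 / e) * |(h (x, y)).1 - x| ≤ C' * (1 / e) * (2 * C * e) := by
      apply mul_le_mul _ (c4.trans hCy) (abs_nonneg _) (by positivity)
      exact mul_le_mul_of_nonneg_right (hC' _) (by positivity)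
    have t3 : C' * (1 / e) * (2 * C * e) = 2 * C' * C := by
      field_simp
    rw [t3] at t2
    have t4 : 0 ≤ C' * C := by positivity
    linarith
  · rw [f2]
    simp only [Prod.snd_add, Prod.smul_snd, Prod.snd_sub, smul_eq_mul]
    refine (abs_add_le _ _).trans ?_
    rw [abs_mul, abs_mul, abs_mul, abs_of_nonneg hcc, abs_of_pos (by positivity : 0 < 1 / e)]
    have t1 : cc (y / e) * |(fderiv ℝ h (x, y) (0, 1)).2 - 1| ≤ 1 * (C * |y|) :=
      mul_le_mul hcc1 c3 (abs_nonneg _) zero_le_one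
    have t2 : |deriv cc (y / e)| * (1 / e) * |(h (x, y)).2 - y| ≤
        C' * (1 / e) * ((2 * C * e) * (2 * e)) := by
      apply mul_le_mul _ _ (abs_nonneg _) (by positivity)
      · exact mul_le_mul_of_nonneg_right (hC' _) (by positivity)
      · exact c5.trans (mul_le_mul hCy hy (abs_nonneg _) (by positivity))
    have t3 : C' * (1 / e) * ((2 * C * e) * (2 * e)) = 4 * C' * C * e := by
      field_simp
      ring
    rw [t3] at t2
    nlinarith

theorem uu_snd (hη : 0 < η) {C e : ℝ} (hC0 : 0 ≤ C) (he : 0 < e) (h2e : 2 * e ≤ η / 2)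
    (h4 : 4 * C * e ≤ 1) (hC : ∀ x y : ℝ, |y| ≤ η / 2 → |(h (x, y)).2 - y| ≤ C * |y| * |y|)
    (x y : ℝ) : |(uu h η e (x, y)).2| ≤ |y| / 2 := by
  by_cases hy : 2 * e ≤ |y|
  · rw [uu_zero he hy]
    simp only [Prod.snd_zero, abs_zero]
    positivity
  · push Not at hy
    have hy2 : |y| ≤ η / 2 := hy.le.trans h2e
    unfold uu
    rw [if_pos (show |((x, y) : P2).2| < η from hy2.trans_lt (by linarith))]
    simp only [Prod.smul_snd, Prod.snd_sub, smul_eq_mul]
    rw [abs_mul, abs_of_nonneg (cc_nn _)]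
    have c5 := hC x y hy2
    calc cc (y / e) * |(h (x, y)).2 - y| ≤ 1 * (C * |y| * |y|) :=
          mul_le_mul (cc_le _) c5 (abs_nonneg _) zero_le_one
      _ = (C * |y|) * |y| := by ring
      _ ≤ (1 / 2) * |y| := by
          apply mul_le_mul_of_nonneg_right _ (abs_nonneg y)
          nlinarith
      _ = |y| / 2 := by ring

end

/-- dilation in the vertical direction -/
noncomputable def DD' (s : ℝ) (hs : s ≠ 0) : Equiv.Perm P2 where
  toFun p := (p.1, s * p.2)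
  invFun p := (p.1, s⁻¹ * p.2)
  left_inv p := by ext <;> simp [hs]
  right_inv p := by ext <;> simp [hs]

theorem sgn {y w : ℝ} (h : |w| ≤ |y| / 2) : (y + w ≤ 0 ↔ y ≤ 0) ∧ (y = 0 ↔ y + w = 0) := by
  have h1 := abs_le.1 h
  rcases lt_trichotomy y 0 with hy | hy | hy
  · rw [abs_of_neg hy] at h1
    constructor
    · constructor <;> intro _ <;> linarith [h1.1, h1.2]
    · constructor <;> intro _ <;> linarith [h1.1, h1.2]
  · subst hy
    simp only [abs_zero, zero_div] at h1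
    have : w = 0 := le_antisymm h1.2 (by linarith [h1.1])
    subst this
    simp
  · rw [abs_of_pos hy] at h1
    constructor
    · constructor <;> intro _ <;> linarith [h1.1, h1.2]
    · constructor <;> intro _ <;> linarith [h1.1, h1.2]

theorem extb : S_EXTB := by
  intro h η hη hh hp h0 h1
  obtain ⟨C, hC0, hC⟩ := k_bound hη hh hp h0 h1
  obtain ⟨C', hC'0, hC'⟩ := cc_deriv
  set B : ℝ := 4 * C' * C + 2 * C with hB
  have hB0 : 0 ≤ B := by positivity
  have hBC : 2 * C ≤ B := by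
    have : 0 ≤ C' * C := by positivity
    rw [hB]
    linarith
  set s : ℝ := min 1 (min (1 / (4 * B + 4)) (η / 4)) with hs
  have hs0 : 0 < s := lt_min one_pos (lt_min (by positivity) (by positivity))
  have hs1 : s ≤ 1 := min_le_left _ _
  have hs2 : s ≤ 1 / (4 * B + 4) := (min_le_right _ _).trans (min_le_left _ _)
  have hs3 : s ≤ η / 4 := (min_le_right _ _).trans (min_le_right _ _)
  have hsB : 2 * B * s ≤ 1 / 2 := by
    rw [le_div_iff₀ (by positivity)] at hs2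
    nlinarith
  set e : ℝ := s ^ 2 with he
  have he0 : 0 < e := by positivity
  have hes : e ≤ s := by rw [he]; nlinarith
  have he1 : e ≤ 1 := hes.trans hs1
  have h2e : 2 * e ≤ η / 2 := by linarith
  have h4 : 4 * C * e ≤ 1 := by nlinarith
  set u := uu h η e with hu
  have husm : ContDiff ℝ ∞ u := uu_smooth he0 (by linarith) hh
  have hder := fun x y : ℝ => uu_fderiv hη hh hC0 hC'0 he0 he1 h2e hC hC' x y
  have hsnd : ∀ x y : ℝ, |(u (x, y)).2| ≤ |y| / 2 := fun x y =>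
    uu_snd hη hC0 he0 h2e h4 (fun x y hy => (hC x y hy).2.2.2.2) x y
  -- the conjugated displacement
  set L1 : P2 →L[ℝ] P2 := (ContinuousLinearMap.fst ℝ ℝ ℝ).prod
    (s • ContinuousLinearMap.snd ℝ ℝ ℝ) with hL1
  set L2 : P2 →L[ℝ] P2 := (ContinuousLinearMap.fst ℝ ℝ ℝ).prod
    (s⁻¹ • ContinuousLinearMap.snd ℝ ℝ ℝ) with hL2
  have hL1a : ∀ p : P2, L1 p = (p.1, s * p.2) := fun p => by
    rw [hL1]; simp
  have hL2a : ∀ p : P2, L2 p = (p.1, s⁻¹ * p.2) := fun p => by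
    rw [hL2]; simp
  set tu : P2 → P2 := fun p => L2 (u (L1 p)) with htu
  have htusm : ContDiff ℝ ∞ tu := L2.contDiff.comp (husm.comp L1.contDiff)
  have htud : ∀ p : P2, ‖fderiv ℝ tu p‖ ≤ 1 / 2 := by
    intro p
    have hdu : DifferentiableAt ℝ u (L1 p) := husm.differentiable (by simp) _
    have e1 : fderiv ℝ tu p = L2.comp ((fderiv ℝ u (L1 p)).comp L1) :=
      (L2.hasFDerivAt.comp p (hdu.hasFDerivAt.comp p L1.hasFDerivAt)).fderiv
    rw [e1]
    apply ContinuousLinearMap.opNorm_le_bound _ (by norm_num)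
    intro v
    obtain ⟨d1, d2, d3⟩ := hder p.1 (s * p.2)
    rw [ContinuousLinearMap.comp_apply, ContinuousLinearMap.comp_apply, hL1a p, hL1a v, hL2a]
    have e2 : ((v.1, s * v.2) : P2) = v.1 • ((1, 0) : P2) + (s * v.2) • ((0, 1) : P2) := by
      ext <;> simp
    rw [e2, map_add, map_smul, map_smul]
    set X := fderiv ℝ (uu h η e) (p.1, s * p.2) (1, 0) with hX
    set Y := fderiv ℝ (uu h η e) (p.1, s * p.2) (0, 1) with hY
    have v1 : |v.1| ≤ ‖v‖ := abs_fst v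
    have v2 : |v.2| ≤ ‖v‖ := abs_snd v
    have X1 : |X.1| ≤ B * e := (abs_fst X).trans (d1.trans (by nlinarith))
    have X2 : |X.2| ≤ B * e := (abs_snd X).trans (d1.trans (by nlinarith))
    have hn := norm_nonneg v
    rw [Prod.norm_def]
    simp only [Prod.fst_add, Prod.snd_add, Prod.smul_fst, Prod.smul_snd, smul_eq_mul,
      Real.norm_eq_abs]
    have hBe : B * e ≤ B * s := mul_le_mul_of_nonneg_left hes hB0
    apply max_le
    · refine (abs_add_le _ _).trans ?_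
      rw [abs_mul, abs_mul, abs_mul, abs_of_pos hs0]
      have t1 : |v.1| * |X.1| ≤ ‖v‖ * (B * s) :=
        mul_le_mul v1 (X1.trans hBe) (abs_nonneg _) hn
      have t2 : s * |v.2| * |Y.1| ≤ s * ‖v‖ * B := by
        apply mul_le_mul _ d2 (abs_nonneg _) (by positivity)
        exact mul_le_mul_of_nonneg_left v2 hs0.le
      nlinarith
    · rw [abs_mul, abs_of_pos (inv_pos.2 hs0)]
      have t1 : |v.1 * X.2 + s * v.2 * Y.2| ≤ ‖v‖ * (B * e) + s * ‖v‖ * (B * e) := by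
        refine (abs_add_le _ _).trans ?_
        rw [abs_mul, abs_mul, abs_mul, abs_of_pos hs0]
        apply add_le_add
        · exact mul_le_mul v1 X2 (abs_nonneg _) hn
        · apply mul_le_mul _ d3 (abs_nonneg _) (by positivity)
          exact mul_le_mul_of_nonneg_left v2 hs0.le
      have t2 : s⁻¹ * |v.1 * X.2 + s * v.2 * Y.2| ≤
          s⁻¹ * (‖v‖ * (B * e) + s * ‖v‖ * (B * e)) :=
        mul_le_mul_of_nonneg_left t1 (inv_pos.2 hs0).le
      have t3 : s⁻¹ * (‖v‖ * (B * e) + s * ‖v‖ * (B * e)) = ‖v‖ * (B * s) + ‖v‖ * (B * e) := by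
        rw [he]
        field_simp
      rw [t3] at t2
      have t4 : ‖v‖ * (B * e) ≤ ‖v‖ * (B * s) := mul_le_mul_of_nonneg_left hBe hn
      nlinarith
  obtain ⟨Mt, hMt, hMt2⟩ := Pool.Agent.W646.DQ.pert (fun q : ℝ × P2 => tu q.2)
    (htusm.comp contDiff_snd) (fun t p => htud p)
  set P : Equiv.Perm P2 := Mt 0 with hP
  have hPa : ∀ p, P p = p + tu p := fun p => hMt 0 p
  have hPi : ContDiff ℝ ∞ (fun p => P⁻¹ p) := by
    have : (fun p => P⁻¹ p) = (fun q : ℝ × P2 => (Mt q.1)⁻¹ q.2) ∘ (fun p : P2 => ((0 : ℝ), p)) := by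
      funext p
      rfl
    rw [this]
    exact hMt2.comp (contDiff_const.prodMk contDiff_id)
  set Dl : Equiv.Perm P2 := DD' s hs0.ne' with hDl
  set M0 : Equiv.Perm P2 := Dl * P * Dl⁻¹ with hM0
  have hDa : ∀ p, Dl p = (p.1, s * p.2) := fun p => rfl
  have hDi : ∀ p, Dl⁻¹ p = (p.1, s⁻¹ * p.2) := fun p => rfl
  have hM0a : ∀ p, M0 p = p + u p := by
    intro p
    rw [hM0, Equiv.Perm.mul_apply, Equiv.Perm.mul_apply, hDi, hPa, hDa, htu]
    simp only [hL1a, hL2a]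
    have e1 : s * (s⁻¹ * p.2) = p.2 := by field_simp
    rw [e1]
    ext
    · simp
    · simp only [Prod.snd_add]
      field_simp
  have hM0i : ∀ p, M0⁻¹ p = Dl (P⁻¹ (Dl⁻¹ p)) := by
    intro p
    rw [hM0, mul_inv_rev, mul_inv_rev, inv_inv]
    rfl
  have hDsm : ContDiff ℝ ∞ (fun p => Dl p) :=
    contDiff_fst.prodMk (contDiff_const.mul contDiff_snd)
  have hDism : ContDiff ℝ ∞ (fun p => Dl⁻¹ p) :=
    contDiff_fst.prodMk (contDiff_const.mul contDiff_snd)
  have hM0sm : ContDiff ℝ ∞ (fun p => M0 p) := by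
    have : (fun p => M0 p) = fun p => p + u p := funext hM0a
    rw [this]
    exact contDiff_id.add husm
  have hM0ism : ContDiff ℝ ∞ (fun p => M0⁻¹ p) := by
    have : (fun p => M0⁻¹ p) = fun p => Dl (P⁻¹ (Dl⁻¹ p)) := funext hM0i
    rw [this]
    exact hDsm.comp (hPi.comp hDism)
  have hsg : ∀ p : P2, ((M0 p).2 ≤ 0 ↔ p.2 ≤ 0) ∧ (p.2 = 0 ↔ (M0 p).2 = 0) := by
    intro p
    rw [hM0a]
    exact sgn (hsnd p.1 p.2)
  set M : Equiv.Perm HH := M0.subtypePerm (fun p => (hsg p).1) with hM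
  have hMa : ∀ p : HH, (M p : P2) = M0 p := fun p => rfl
  have hMi : ∀ p : HH, (M⁻¹ p : P2) = M0⁻¹ p := fun p => rfl
  refine ⟨M, ⟨⟨_, hM0sm, hMa⟩, ⟨_, hM0ism, hMi⟩, ?_, ?_, ⟨-(2 * e), ?_⟩⟩, e, he0, by linarith, ?_⟩
  · intro p
    apply Subtype.ext
    rw [hMa, hT_coe, hT_coe, hMa, hM0a, hM0a, hu, uu_per hp p.1]
    ext
    · simp
      ring
    · simp
  · intro p
    rw [hMa]
    exact (hsg p.1).2
  · intro p hpl
    apply Subtype.ext
    rw [hMa, hM0a, hu, uu_zero he0, add_zero]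
    rw [abs_of_nonpos p.2]
    linarith
  · intro p hpe
    have hle := p.2
    have hab : |p.1.2| < e := by
      rw [abs_of_nonpos hle]
      linarith
    rw [hMa, hM0a, hu]
    unfold uu
    rw [if_pos (hab.trans_le (by linarith)), cc_one, one_smul]
    · abel
    · rw [abs_div, abs_of_pos he0, div_le_one he0]
      exact hab.le

end Pool.Agent.W883.DQ.EB
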