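import Pool.Agent.W883.DQ.CH1

/-! Project DQ, part CH0: chains, smoothness, size, Lipschitz dependence. -/

set_option autoImplicit false

open scoped ContDiff

namespace Pool.Agent.W883.DQ

open Pool.Agent.W133.DQ

theorem chain_abs {w : ℕ → P2 → ℝ} : ∀ (m : ℕ) (e : ℝ), (∀ i, i < m → ∀ p, |w i p| ≤ e) →
    ∀ p, |chain w m p| ≤ m * e := by
  intro m
  induction m with
  | zero => intro e _ p; simp [chain]
  | succ m ih =>
    intro e h p
    have h1 := ih e (fun i hi => h i (by omega)) p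
    have h2 := h m (by omega) (p.1 + chain w m p, p.2)
    change |chain w m p + w m (p.1 + chain w m p, p.2)| ≤ _
    refine (abs_add_le _ _).trans ?_
    push_cast
    linarith

theorem chain_NB1 (hE : S_EC0) {w : ℕ → P2 → ℝ} (hw : ∀ i, ContDiff ℝ ∞ (w i)) (d : ℝ)
    (hd : 0 ≤ d) : ∀ m : ℕ, 4 * m * d ≤ 1 → (∀ i, i < m → NB 1 (w i) d) →
    NB 1 (chain w m) (2 * m * d) := by
  obtain ⟨C, hC0, hC⟩ := hE 1 le_rfl
  intro m
  induction m with
  | zero => intro _ _; exact NB_zero 1 (by simp)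
  | succ m ih =>
    intro hm h
    push_cast at hm
    have h1 := ih (by nlinarith) (fun i hi => h i (by omega))
    have key := hC (w m) (chain w m) (hw m) (contDiff_chain hw m) 0 d (2 * m * d) d (2 * m * d)
      le_rfl hd (by positivity) hd (by positivity) (fun j hj1 hj2 => absurd hj2 (by omega))
      (h m (by omega)) h1 (h m (by omega)) h1
    refine NB_mono key ?_
    push_cast
    nlinarith [mul_nonneg (mul_nonneg (Nat.cast_nonneg (α := ℝ) m) hd) hd]

theorem lip_of_NB1 {u : P2 → ℝ} (hu : ContDiff ℝ ∞ u) {δ : ℝ} (h : NB 1 u δ) (p q : P2) :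
    |u p - u q| ≤ δ * ‖p - q‖ := by
  have hd : Differentiable ℝ u := hu.differentiable (by simp)
  have h1 : ∀ x ∈ (Set.univ : Set P2), ‖fderiv ℝ u x‖ ≤ δ := by
    intro x _
    rw [← norm_iteratedFDeriv_one]
    exact h x
  have := Convex.norm_image_sub_le_of_norm_fderiv_le (𝕜 := ℝ) (fun x _ => hd x) h1
    convex_univ (Set.mem_univ q) (Set.mem_univ p)
  simpa using this

theorem chain_lip {w w' : ℕ → P2 → ℝ} (hw : ∀ i, ContDiff ℝ ∞ (w i)) (δ : ℝ) (hδ : 0 ≤ δ) (d : ℝ) :
    ∀ m : ℕ, 2 * m * δ ≤ 1 → (∀ i, i < m → NB 1 (w i) δ) →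
    (∀ i, i < m → ∀ p, |w i p - w' i p| ≤ d) →
    ∀ p, |chain w m p - chain w' m p| ≤ 2 * m * d := by
  intro m
  induction m with
  | zero => intro _ _ _ p; simp [chain]
  | succ m ih =>
    intro hm h h2 p
    push_cast at hm
    have hd : 0 ≤ d := (abs_nonneg _).trans (h2 m (by omega) p)
    have h3 := ih (by nlinarith) (fun i hi => h i (by omega)) (fun i hi => h2 i (by omega)) p
    have h4 := lip_of_NB1 (hw m) (h m (by omega)) (p.1 + chain w m p, p.2)
      (p.1 + chain w' m p, p.2)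
    have h5 := h2 m (by omega) (p.1 + chain w' m p, p.2)
    have h6 : ‖((p.1 + chain w m p, p.2) : P2) - (p.1 + chain w' m p, p.2)‖ =
        |chain w m p - chain w' m p| := by
      rw [Prod.mk_sub_mk, Prod.norm_mk]
      simp
    rw [h6] at h4
    change |(chain w m p + w m (p.1 + chain w m p, p.2)) -
      (chain w' m p + w' m (p.1 + chain w' m p, p.2))| ≤ _
    have h7 : (chain w m p + w m (p.1 + chain w m p, p.2)) -
      (chain w' m p + w' m (p.1 + chain w' m p, p.2)) = (chain w m p - chain w' m p) +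
      (w m (p.1 + chain w m p, p.2) - w m (p.1 + chain w' m p, p.2)) +
      (w m (p.1 + chain w' m p, p.2) - w' m (p.1 + chain w' m p, p.2)) := by ring
    rw [h7]
    refine (abs_add_three _ _ _).trans ?_
    have h8 : δ * |chain w m p - chain w' m p| ≤ δ * (2 * m * d) :=
      mul_le_mul_of_nonneg_left h3 hδ
    have h9 : δ * (2 * m * d) ≤ d := by
      have : (2 * m * δ) * d ≤ 1 * d := mul_le_mul_of_nonneg_right (by nlinarith) hd
      linarith
    push_cast
    linarith

theorem ch0 (hE : S_EC0) : S_CH0 := by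
  intro M
  have hδ : (0 : ℝ) < 1 / (4 * M + 4) := by positivity
  have hM : 4 * (M : ℝ) * (1 / (4 * M + 4)) ≤ 1 := by
    rw [mul_one_div, div_le_one (by positivity)]
    linarith
  refine ⟨1 / (4 * M + 4), hδ, fun w w' hw hw' => ⟨contDiff_chain hw M, fun e h => chain_abs M e h,
    ?_, ?_⟩⟩
  · intro d hd hdδ h
    apply chain_NB1 hE hw d hd M _ h
    calc 4 * (M : ℝ) * d ≤ 4 * M * (1 / (4 * M + 4)) :=
          mul_le_mul_of_nonneg_left hdδ (by positivity)
      _ ≤ 1 := hM
  · intro h h' d h2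
    apply chain_lip hw _ hδ.le d M _ h h2
    have : 0 ≤ 2 * (M : ℝ) * (1 / (4 * M + 4)) := by positivity
    linarith

end Pool.Agent.W883.DQ
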